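import Pool.Agent.Helper41.Cluster4.Goals
import Pool.Agent.Helper41.Cluster4.Tools

/-! Packet PE: five rotations about a plane. -/

namespace Pool.Agent.Helper73.Cluster4

open Module Pool.Agent.Helper65.Delone Pool.Agent.Helper41.Cluster4
open scoped RealInnerProductSpace

section

variable {E : Type*} [NormedAddCommGroup E] [InnerProductSpace ℝ E]

/-- the component in the plane -/
noncomputable def pa (y u w : E) : E := (⟪y, w⟫ : ℝ) • y + (⟪u, w⟫ : ℝ) • u

/-- the component orthogonal to the plane -/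
noncomputable def pb (y u w : E) : E := w - pa y u w

theorem pa_mem (y u w : E) : pa y u w ∈ Submodule.span ℝ {y, u} := by
  unfold pa
  refine Submodule.add_mem _ (Submodule.smul_mem _ _ (Submodule.subset_span ?_))
    (Submodule.smul_mem _ _ (Submodule.subset_span ?_))
  · exact Set.mem_insert _ _
  · exact Set.mem_insert_of_mem _ rfl

theorem pb_mem {y u : E} (hy : ‖y‖ = 1) (hu : ‖u‖ = 1) (huy : ⟪u, y⟫ = 0) (w : E) :
    pb y u w ∈ (Submodule.span ℝ {y, u})ᗮ := by
  have hyu : ⟪y, u⟫ = 0 := by rw [real_inner_comm]; exact huy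
  rw [Submodule.mem_orthogonal]
  intro x hx
  have hyy : ⟪y, y⟫ = 1 := by rw [real_inner_self_eq_norm_sq, hy]; norm_num
  have huu : ⟪u, u⟫ = 1 := by rw [real_inner_self_eq_norm_sq, hu]; norm_num
  refine Submodule.span_induction (p := fun x _ => ⟪x, pb y u w⟫ = 0) ?_ ?_ ?_ ?_ hx
  · rintro x (rfl | hx)
    · unfold pb pa
      rw [inner_sub_right, inner_add_right, inner_smul_right, inner_smul_right, hyy, hyu]
      ring
    · rw [Set.mem_singleton_iff] at hx
      subst hx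
      unfold pb pa
      rw [inner_sub_right, inner_add_right, inner_smul_right, inner_smul_right, huu, huy]
      ring
  · exact inner_zero_left _
  · intro a b _ _ ha hb
    rw [inner_add_left, ha, hb, add_zero]
  · intro c a _ ha
    rw [inner_smul_left, ha, mul_zero]

theorem split {y u : E} (hy : ‖y‖ = 1) (hu : ‖u‖ = 1) (huy : ⟪u, y⟫ = 0) (v w : E) :
    ⟪v, w⟫ = ⟪pa y u v, pa y u w⟫ + ⟪pb y u v, pb y u w⟫ := by
  have e1 : v = pa y u v + pb y u v := by unfold pb; abel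
  have e2 : w = pa y u w + pb y u w := by unfold pb; abel
  have h1 : ⟪pa y u v, pb y u w⟫ = 0 :=
    Submodule.inner_right_of_mem_orthogonal (pa_mem y u v) (pb_mem hy hu huy w)
  have h2 : ⟪pb y u v, pa y u w⟫ = 0 :=
    Submodule.inner_left_of_mem_orthogonal (pa_mem y u w) (pb_mem hy hu huy v)
  conv_lhs => rw [e1, e2]
  rw [inner_add_left, inner_add_right, inner_add_right, h1, h2]
  ring

theorem pa_map {y u : E} {A : E ≃ₗᵢ[ℝ] E} (hAy : A y = y) (hAu : A u = u) (w : E) :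
    pa y u (A w) = pa y u w := by
  unfold pa
  have h1 : ⟪y, A w⟫ = ⟪y, w⟫ := by
    conv_lhs => rw [← hAy]
    exact A.inner_map_map y w
  have h2 : ⟪u, A w⟫ = ⟪u, w⟫ := by
    conv_lhs => rw [← hAu]
    exact A.inner_map_map u w
  rw [h1, h2]

theorem norm_split {y u : E} (hy : ‖y‖ = 1) (hu : ‖u‖ = 1) (huy : ⟪u, y⟫ = 0) {w : E}
    (hw : ‖w‖ = 1) : ‖pa y u w‖ ^ 2 + ‖pb y u w‖ ^ 2 = 1 := by
  have h := split hy hu huy w w
  rw [real_inner_self_eq_norm_sq, real_inner_self_eq_norm_sq, real_inner_self_eq_norm_sq, hw] at h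
  linarith

theorem finrank_plane {y u : E} (hy : ‖y‖ = 1) (hu : ‖u‖ = 1) (huy : ⟪u, y⟫ = 0) :
    finrank ℝ (Submodule.span ℝ {y, u}) = 2 := by
  have hyu : ⟪y, u⟫ = 0 := by rw [real_inner_comm]; exact huy
  have ho : Orthonormal ℝ ![y, u] := by
    rw [orthonormal_iff_ite]
    intro i j
    fin_cases i <;> fin_cases j
    · simp [hy]
    · simp [hyu]
    · simp [huy]
    · simp [hu]
  have h := finrank_span_eq_card ho.linearIndependent
  have e : Set.range ![y, u] = {y, u} := by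
    ext x
    simp [eq_comm]
    exact or_comm
  rw [e] at h
  simpa using h

theorem cos5 : (0.809 : ℝ) ≤ Real.cos (2 * Real.pi / (10 : ℕ)) ∧
    (0.309 : ℝ) ≤ Real.cos (2 * Real.pi / (5 : ℕ)) := by
  have h5 : (2.236 : ℝ) ≤ √5 := by
    apply Real.le_sqrt_of_sq_le; norm_num
  have hs : √5 ^ 2 = 5 := Real.sq_sqrt (by norm_num)
  have e1 : 2 * Real.pi / (10 : ℕ) = Real.pi / 5 := by push_cast; ring
  have e2 : 2 * Real.pi / (5 : ℕ) = 2 * (Real.pi / 5) := by push_cast; ring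
  rw [e1, e2, Real.cos_two_mul, Real.cos_pi_div_five]
  constructor
  · linarith
  · nlinarith

/-- the set-up -/
structure SU (C : Subgroup (E ≃ₗᵢ[ℝ] E)) (y u : E) (N : Set E) : Prop where
  fin : Finite C
  hy : ‖y‖ = 1
  hu : ‖u‖ = 1
  huy : ⟪u, y⟫ = 0
  fy : ∀ A ∈ C, A y = y
  fu : ∀ A ∈ C, A u = u
  card : Nat.card C = 5
  code : UCode N
  inv : Inv C N
  free : ∀ w, w ∈ N → w ∉ Submodule.span ℝ {y, u} → ∀ A ∈ C, A w = w → A = 1

variable {C : Subgroup (E ≃ₗᵢ[ℝ] E)} {y u : E} {N : Set E}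

theorem SU.pa_orb (h : SU C y u N) {w x : E} (hx : x ∈ orb C w) : pa y u x = pa y u w := by
  obtain ⟨A, hA, rfl⟩ := hx
  exact pa_map (h.fy A hA) (h.fu A hA) w

theorem SU.norm_orb {w x : E} (hx : x ∈ orb C w) : ‖x‖ = ‖w‖ := by
  obtain ⟨A, hA, rfl⟩ := hx
  exact A.norm_map w

theorem SU.pb_eq (h : SU C y u N) {w x : E} (hx : x ∈ orb C w) : pb y u x = x - pa y u w := by
  unfold pb
  rw [h.pa_orb hx]

theorem SU.norm_pb (h : SU C y u N) {w x : E} (hw : ‖w‖ = 1) (hx : x ∈ orb C w) :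
    ‖pb y u x‖ = ‖pb y u w‖ := by
  have h1 := norm_split h.hy h.hu h.huy hw
  have h2 := norm_split h.hy h.hu h.huy ((SU.norm_orb hx).trans hw)
  rw [h.pa_orb hx] at h2
  have h3 : ‖pb y u x‖ ^ 2 = ‖pb y u w‖ ^ 2 := by linarith
  exact (pow_left_inj₀ (norm_nonneg _) (norm_nonneg _) two_ne_zero).1 h3

theorem SU.orb_sub (h : SU C y u N) {w : E} (hw : w ∈ N) : orb C w ⊆ N := by
  rintro x ⟨A, hA, rfl⟩
  exact h.inv A hA w hw

theorem SU.ncard_orb (h : SU C y u N) {w : E} (hw : w ∈ N)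
    (hw' : w ∉ Submodule.span ℝ {y, u}) : (orb C w).ncard = 5 := by
  have h1 := ncard_orb_mul h.fin w
  have h2 : Nat.card (stb C w) = 1 := by
    rw [Nat.card_eq_one_iff_unique]
    constructor
    · constructor
      rintro ⟨A, hA⟩ ⟨B, hB⟩
      apply Subtype.ext
      show A = B
      rw [h.free w hw hw' A hA.1 hA.2, h.free w hw hw' B hB.1 hB.2]
    · exact ⟨1⟩
  rw [h2, mul_one, h.card] at h1
  exact h1

theorem SU.inner_orb (h : SU C y u N) {w x x' : E} (hw : w ∈ N) (hx : x ∈ orb C w)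
    (hx' : x' ∈ orb C w) (hne : x ≠ x') :
    1 - ‖pb y u w‖ ^ 2 + ⟪pb y u x, pb y u x'⟫ ≤ 1 / 2 := by
  have h1 := h.code.sep x (h.orb_sub hw hx) x' (h.orb_sub hw hx') hne
  rw [split h.hy h.hu h.huy x x', h.pa_orb hx, h.pa_orb hx', real_inner_self_eq_norm_sq] at h1
  have h2 := norm_split h.hy h.hu h.huy (h.code.norm w hw)
  linarith

theorem SU.inner_orb2 (h : SU C y u N) {w v x x' : E} (hw : w ∈ N) (hv : v ∈ N)
    (hx : x ∈ orb C w) (hx' : x' ∈ orb C v) (hne : x ≠ x') :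
    ⟪pa y u w, pa y u v⟫ + ⟪pb y u x, pb y u x'⟫ ≤ 1 / 2 := by
  have h1 := h.code.sep x (h.orb_sub hw hx) x' (h.orb_sub hv hx') hne
  rw [split h.hy h.hu h.huy x x', h.pa_orb hx, h.pa_orb hx'] at h1
  exact h1

/-- the orthogonal components of an orbit, as a finite set -/
theorem SU.exists_finset (h : SU C y u N) {w : E} (hw : w ∈ N)
    (hw' : w ∉ Submodule.span ℝ {y, u}) (k : ℝ) (hk : k ≠ 0) :
    ∃ s : Finset E, s.card = 5 ∧ ∀ z, z ∈ s ↔ ∃ x ∈ orb C w, z = k • pb y u x := by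
  classical
  have hf := orb_finite h.fin w
  refine ⟨hf.toFinset.image fun x => k • pb y u x, ?_, ?_⟩
  · rw [Finset.card_image_of_injOn, ← Set.ncard_eq_toFinset_card (orb C w) hf, h.ncard_orb hw hw']
    intro x hx x' hx' he
    have hx1 : x ∈ orb C w := by simpa using hx
    have hx2 : x' ∈ orb C w := by simpa using hx'
    have he' : k • pb y u x = k • pb y u x' := he
    have he2 := smul_right_injective E hk he'
    rw [h.pb_eq hx1, h.pb_eq hx2] at he2
    exact sub_left_injective he2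
  · intro z
    simp only [Finset.mem_image, Set.Finite.mem_toFinset]
    constructor
    · rintro ⟨x, hx, rfl⟩; exact ⟨x, hx, rfl⟩
    · rintro ⟨x, hx, rfl⟩; exact ⟨x, hx, rfl⟩

theorem SU.rho (h : SU C y u N) (hC : Circle4 E)
    (hP : finrank ℝ ((Submodule.span ℝ {y, u})ᗮ : Submodule ℝ E) = 2) {w : E} (hw : w ∈ N)
    (hw' : w ∉ Submodule.span ℝ {y, u}) : 0.72 ≤ ‖pb y u w‖ ^ 2 := by
  obtain ⟨s, hs, hs'⟩ := h.exists_finset hw hw' 1 one_ne_zero
  obtain ⟨v, hv, v', hv', hne, hi⟩ := hC _ hP ‖pb y u w‖ s 5 (by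
    intro v hv
    obtain ⟨x, hx, rfl⟩ := (hs' v).1 hv
    rw [one_smul]
    exact ⟨pb_mem h.hy h.hu h.huy x, h.norm_pb (h.code.norm w hw) hx⟩) (by norm_num) hs.ge
  obtain ⟨x, hx, rfl⟩ := (hs' v).1 hv
  obtain ⟨x', hx', rfl⟩ := (hs' v').1 hv'
  rw [one_smul, one_smul] at hi
  have hxx : x ≠ x' := by rintro rfl; exact hne rfl
  have h1 := h.inner_orb hw hx hx' hxx
  have h2 := cos5.2
  have h3 : 0 ≤ ‖pb y u w‖ ^ 2 := by positivity
  nlinarith

theorem SU.neg (h : SU C y u N) (hC : Circle4 E)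
    (hP : finrank ℝ ((Submodule.span ℝ {y, u})ᗮ : Submodule ℝ E) = 2) {w v : E} (hw : w ∈ N)
    (hw' : w ∉ Submodule.span ℝ {y, u}) (hv : v ∈ N) (hv' : v ∉ Submodule.span ℝ {y, u})
    (hvw : v ∉ orb C w) : ⟪pa y u w, pa y u v⟫ < 0 := by
  classical
  have r1 := h.rho hC hP hw hw'
  have r2 := h.rho hC hP hv hv'
  set ρ := ‖pb y u w‖ with hρ
  set σ := ‖pb y u v‖ with hσ
  have hρ0 : 0 < ρ := by
    rcases (norm_nonneg (pb y u w)).eq_or_lt with h1 | h1
    · rw [← hρ] at h1; rw [← h1] at r1; norm_num at r1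
    · exact h1
  have hσ0 : 0 < σ := by
    rcases (norm_nonneg (pb y u v)).eq_or_lt with h1 | h1
    · rw [← hσ] at h1; rw [← h1] at r2; norm_num at r2
    · exact h1
  have hρ1 : ρ ^ 2 ≤ 1 := by
    have h2 := norm_split h.hy h.hu h.huy (h.code.norm w hw)
    have : 0 ≤ ‖pa y u w‖ ^ 2 := by positivity
    linarith
  have hσ1 : σ ^ 2 ≤ 1 := by
    have h2 := norm_split h.hy h.hu h.huy (h.code.norm v hv)
    have : 0 ≤ ‖pa y u v‖ ^ 2 := by positivity
    linarith
  have hρσ : 0.72 ≤ ρ * σ := by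
    by_contra hcon
    have h1 : ρ * σ < 0.72 := not_le.1 hcon
    have h2 : (ρ * σ) ^ 2 < 0.72 ^ 2 := by
      have : 0 < ρ * σ := mul_pos hρ0 hσ0
      nlinarith
    have h3 : (0.72 : ℝ) ^ 2 ≤ ρ ^ 2 * σ ^ 2 := by nlinarith
    rw [mul_pow] at h2
    linarith
  have hneq : ∀ x ∈ orb C w, ∀ x' ∈ orb C v, x ≠ x' := by
    intro x hx x' hx' he
    apply hvw
    obtain ⟨A, hA, rfl⟩ := hx
    have h1 : v ∈ orb C x' := orb_symm hx'
    rw [← he] at h1
    obtain ⟨B, hB, rfl⟩ := h1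
    exact ⟨B * A, C.mul_mem hB hA, rfl⟩
  obtain ⟨s, hs, hs'⟩ := h.exists_finset hw hw' ρ⁻¹ (inv_ne_zero hρ0.ne')
  obtain ⟨t, ht, ht'⟩ := h.exists_finset hv hv' σ⁻¹ (inv_ne_zero hσ0.ne')
  have hmix : ∀ x ∈ orb C w, ∀ x' ∈ orb C v, (0.809 : ℝ) ≤ ⟪ρ⁻¹ • pb y u x, σ⁻¹ • pb y u x'⟫ →
      ⟪pa y u w, pa y u v⟫ < 0 := by
    intro x hx x' hx' hi
    have h1 := h.inner_orb2 hw hv hx hx' (hneq x hx x' hx')
    rw [real_inner_smul_left, real_inner_smul_right, ← mul_assoc, ← mul_inv,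
      inv_mul_eq_div, le_div_iff₀ (mul_pos hρ0 hσ0)] at hi
    nlinarith
  have hnorm1 : ∀ z ∈ s, ‖z‖ = 1 := by
    intro z hz
    obtain ⟨x, hx, rfl⟩ := (hs' z).1 hz
    rw [norm_smul, h.norm_pb (h.code.norm w hw) hx, norm_inv, Real.norm_of_nonneg hρ0.le, ← hρ]
    exact inv_mul_cancel₀ hρ0.ne'
  have hnorm2 : ∀ z ∈ t, ‖z‖ = 1 := by
    intro z hz
    obtain ⟨x, hx, rfl⟩ := (ht' z).1 hz
    rw [norm_smul, h.norm_pb (h.code.norm v hv) hx, norm_inv, Real.norm_of_nonneg hσ0.le, ← hσ]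
    exact inv_mul_cancel₀ hσ0.ne'
  by_cases hdis : Disjoint s t
  · have hcard : (s ∪ t).card = 10 := by
      rw [Finset.card_union_of_disjoint hdis, hs, ht]
    obtain ⟨a, ha, b, hb, hne, hi⟩ := hC _ hP 1 (s ∪ t) 10 (by
      intro z hz
      rcases Finset.mem_union.1 hz with hz | hz
      · refine ⟨?_, hnorm1 z hz⟩
        obtain ⟨x, hx, rfl⟩ := (hs' z).1 hz
        exact Submodule.smul_mem _ _ (pb_mem h.hy h.hu h.huy x)
      · refine ⟨?_, hnorm2 z hz⟩
        obtain ⟨x, hx, rfl⟩ := (ht' z).1 hz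
        exact Submodule.smul_mem _ _ (pb_mem h.hy h.hu h.huy x)) (by norm_num) hcard.ge
    have hi' : (0.809 : ℝ) ≤ ⟪a, b⟫ := by
      have := cos5.1
      rw [one_pow, one_mul] at hi
      linarith
    rcases Finset.mem_union.1 ha with ha | ha <;> rcases Finset.mem_union.1 hb with hb | hb
    · obtain ⟨x, hx, rfl⟩ := (hs' a).1 ha
      obtain ⟨x', hx', rfl⟩ := (hs' b).1 hb
      exfalso
      have hxx : x ≠ x' := by rintro rfl; exact hne rfl
      have h1 := h.inner_orb hw hx hx' hxx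
      rw [real_inner_smul_left, real_inner_smul_right, ← mul_assoc, ← mul_inv,
        inv_mul_eq_div, le_div_iff₀ (mul_pos hρ0 hρ0)] at hi'
      nlinarith
    · obtain ⟨x, hx, rfl⟩ := (hs' a).1 ha
      obtain ⟨x', hx', rfl⟩ := (ht' b).1 hb
      exact hmix x hx x' hx' hi'
    · obtain ⟨x, hx, rfl⟩ := (ht' a).1 ha
      obtain ⟨x', hx', rfl⟩ := (hs' b).1 hb
      rw [real_inner_comm] at hi'
      exact hmix x' hx' x hx hi'
    · obtain ⟨x, hx, rfl⟩ := (ht' a).1 ha
      obtain ⟨x', hx', rfl⟩ := (ht' b).1 hb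
      exfalso
      have hxx : x ≠ x' := by rintro rfl; exact hne rfl
      have h1 := h.inner_orb hv hx hx' hxx
      rw [real_inner_smul_left, real_inner_smul_right, ← mul_assoc, ← mul_inv,
        inv_mul_eq_div, le_div_iff₀ (mul_pos hσ0 hσ0)] at hi'
      nlinarith
  · rw [Finset.not_disjoint_iff] at hdis
    obtain ⟨z, hz, hz'⟩ := hdis
    have hzz : ⟪z, z⟫ = (1 : ℝ) := by rw [real_inner_self_eq_norm_sq, hnorm1 z hz]; norm_num
    obtain ⟨x, hx, hx1⟩ := (hs' z).1 hz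
    obtain ⟨x', hx', hx1'⟩ := (ht' z).1 hz'
    refine hmix x hx x' hx' ?_
    rw [← hx1, ← hx1', hzz]
    norm_num

theorem pent [FiniteDimensional ℝ E] (hF : FixFacts E) (hC : Circle4 E) : Pent E := by
  classical
  intro hE G y u N hfin hy hu huy hG hcard hN hI
  obtain ⟨hF1, hF2, -⟩ := hF hE
  have hPr := finrank_plane hy hu huy
  have hP : finrank ℝ ((Submodule.span ℝ {y, u})ᗮ : Submodule ℝ E) = 2 := by
    have h1 := Submodule.finrank_add_finrank_orthogonal (Submodule.span ℝ {y, u})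
    omega
  have hy0 : y ≠ 0 := by
    intro h; rw [h, norm_zero] at hy; norm_num at hy
  have h : SU G y u N :=
    { fin := hfin, hy := hy, hu := hu, huy := huy, fy := fun A hA => (hG A hA).2.1,
      fu := fun A hA => (hG A hA).2.2, card := hcard, code := hN, inv := hI
      free := by
        intro w hw hw' A hA hAw
        by_contra hA1
        apply hw'
        obtain ⟨r1, r2, r3⟩ := hG A hA
        have h1 := hF2 A r1 hA1 y hy0 r2
        have h2 : Submodule.span ℝ {y, u} ≤ fixSpace A := by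
          rw [Submodule.span_le]
          rintro x (rfl | hx)
          · exact r2
          · rw [Set.mem_singleton_iff] at hx; subst hx; exact r3
        have h3 : Submodule.span ℝ {y, u} = fixSpace A :=
          Submodule.eq_of_le_of_finrank_eq h2 (by rw [hPr, h1])
        rw [h3]
        exact hAw }
  by_contra hcon
  have hcon' : 16 ≤ {w | w ∈ N ∧ w ∉ Submodule.span ℝ {y, u}}.ncard := by omega
  set N' : Set E := {w | w ∈ N ∧ w ∉ Submodule.span ℝ {y, u}} with hN'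
  -- pick the points
  have hpick : ∀ S : Finset E, (∀ x ∈ S, x ∈ N') → S.card ≤ 3 →
      ∃ v ∈ N', ∀ x ∈ S, v ∉ orb G x := by
    intro S hS hS3
    by_contra hc
    push Not at hc
    have hsub : N' ⊆ ⋃ x ∈ S, orb G x := by
      intro v hv
      obtain ⟨x, hx, hvx⟩ := hc v hv
      exact Set.mem_biUnion hx hvx
    have hle : ∀ T : Finset E, (∀ x ∈ T, x ∈ N') → (⋃ x ∈ T, orb G x).ncard ≤ 5 * T.card ∧
        (⋃ x ∈ T, orb G x).Finite := by
      intro T
      induction T using Finset.induction_on with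
      | empty => intro _; simp
      | insert a T ha ih =>
        intro hT
        obtain ⟨ih1, ih2⟩ := ih fun x hx => hT x (Finset.mem_insert_of_mem hx)
        rw [Finset.set_biUnion_insert, Finset.card_insert_of_notMem ha]
        have haN := hT a (Finset.mem_insert_self _ _)
        constructor
        · refine (Set.ncard_union_le _ _).trans ?_
          rw [h.ncard_orb haN.1 haN.2]
          omega
        · exact (orb_finite hfin a).union ih2
    obtain ⟨l1, l2⟩ := hle S hS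
    have := Set.ncard_le_ncard hsub l2
    omega
  have hneg : ∀ w v, w ∈ N' → v ∈ N' → v ∉ orb G w → ⟪pa y u w, pa y u v⟫ < 0 :=
    fun w v hw hv hvw => h.neg hC hP hw.1 hw.2 hv.1 hv.2 hvw
  obtain ⟨w1, hw1, -⟩ := hpick ∅ (by simp) (by simp)
  obtain ⟨w2, hw2, h2⟩ := hpick {w1} (by simpa using hw1) (by simp)
  obtain ⟨w3, hw3, h3⟩ := hpick {w1, w2} (by
    intro x hx
    simp only [Finset.mem_insert, Finset.mem_singleton] at hx
    rcases hx with rfl | rfl
    · exact hw1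
    · exact hw2) (Finset.card_le_two.trans (by norm_num))
  obtain ⟨w4, hw4, h4⟩ := hpick {w1, w2, w3} (by
    intro x hx
    simp only [Finset.mem_insert, Finset.mem_singleton] at hx
    rcases hx with rfl | rfl | rfl
    · exact hw1
    · exact hw2
    · exact hw3) Finset.card_le_three
  let W : Fin 4 → E := ![w1, w2, w3, w4]
  have hWN : ∀ i, W i ∈ N' := by
    intro i; fin_cases i
    · exact hw1
    · exact hw2
    · exact hw3
    · exact hw4
  have hWo : ∀ i j : Fin 4, i < j → W j ∉ orb G (W i) := by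
    intro i j hij
    fin_cases i <;> fin_cases j <;> first | (exact absurd hij (by decide)) | skip
    · exact h2 w1 (by simp)
    · exact h3 w1 (by simp)
    · exact h4 w1 (by simp)
    · exact h3 w2 (by simp)
    · exact h4 w2 (by simp)
    · exact h4 w3 (by simp)
  have hneg2 : ∀ i j : Fin 4, i ≠ j → ⟪pa y u (W i), pa y u (W j)⟫ < 0 := by
    intro i j hij
    rcases lt_or_gt_of_ne hij with h5 | h5
    · exact hneg _ _ (hWN i) (hWN j) (hWo i j h5)
    · rw [real_inner_comm]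
      exact hneg _ _ (hWN j) (hWN i) (hWo j i h5)
  have hpos : ∀ i, 0 < ‖pa y u (W i)‖ := by
    intro i
    obtain ⟨j, hj⟩ : ∃ j : Fin 4, i ≠ j := by
      refine ⟨i + 1, ?_⟩
      revert i; decide
    rw [norm_pos_iff]
    intro h0
    have := hneg2 i j hj
    rw [h0, inner_zero_left] at this
    exact lt_irrefl _ this
  let Z : Fin 4 → E := fun i => ‖pa y u (W i)‖⁻¹ • pa y u (W i)
  have hZneg : ∀ i j : Fin 4, i ≠ j → ⟪Z i, Z j⟫ < 0 := by
    intro i j hij
    show ⟪‖pa y u (W i)‖⁻¹ • pa y u (W i), ‖pa y u (W j)‖⁻¹ • pa y u (W j)⟫ < 0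
    rw [real_inner_smul_left, real_inner_smul_right]
    have h1 := inv_pos.2 (hpos i)
    have h2 := inv_pos.2 (hpos j)
    exact mul_neg_of_pos_of_neg h1 (mul_neg_of_pos_of_neg h2 (hneg2 i j hij))
  have hZ1 : ∀ i, ‖Z i‖ = 1 := by
    intro i
    show ‖‖pa y u (W i)‖⁻¹ • pa y u (W i)‖ = 1
    rw [norm_smul, norm_inv, norm_norm]
    exact inv_mul_cancel₀ (hpos i).ne'
  have hZinj : Function.Injective Z := by
    intro i j hij
    by_contra hne
    have h1 := hZneg i j hne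
    rw [hij, real_inner_self_eq_norm_sq, hZ1] at h1
    norm_num at h1
  obtain ⟨a, ha, b, hb, hne, hi⟩ := hC _ hPr 1 (Finset.univ.image Z) 4 (by
    intro v hv
    obtain ⟨i, -, rfl⟩ := Finset.mem_image.1 hv
    exact ⟨Submodule.smul_mem _ _ (pa_mem _ _ _), hZ1 i⟩) (by norm_num) (by
    rw [Finset.card_image_of_injective _ hZinj]; simp)
  obtain ⟨i, -, rfl⟩ := Finset.mem_image.1 ha
  obtain ⟨j, -, rfl⟩ := Finset.mem_image.1 hb
  have hij : i ≠ j := by rintro rfl; exact hne rfl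
  have h1 := hZneg i j hij
  have e : 2 * Real.pi / (4 : ℕ) = Real.pi / 2 := by push_cast; ring
  rw [e, Real.cos_pi_div_two, mul_zero] at hi
  linarith

end

end Pool.Agent.Helper73.Cluster4
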